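import Pool.Agent.V8H38.NH.Dep
import Pool.Agent.V8H45.NR.SimProg

/-!
# Multihead automata as nondeterministic branching programs
-/

set_option linter.unusedSectionVars false

namespace Pool.Agent.V8H38.NH

open Finset Relation Pool.Agent.V8H38.RM Pool.Agent.V8H47.MH Pool.Agent.V8H45.NR

/-- the label for the number of a literal -/
def lb (n l : ℕ) : Option (Fin n × Bool) :=
  if h : l < n then some (⟨l, h⟩, true) else if h : l - n < n then some (⟨l - n, h⟩, false)
    else none

theorem lb_iff {n : ℕ} (x : Fin n → Bool) (l : ℕ) :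
    (∀ i c, lb n l = some (i, c) → x i = c) ↔ nv x l = true := by
  unfold lb nv
  by_cases h1 : l < n
  · rw [dif_pos h1, dif_pos h1]
    constructor
    · intro h; exact h _ _ rfl
    · intro h i c hc
      rw [Option.some.injEq, Prod.mk.injEq] at hc
      rw [← hc.1, ← hc.2]; exact h
  · rw [dif_neg h1, dif_neg h1]
    by_cases h2 : l - n < n
    · rw [dif_pos h2, dif_pos h2]
      constructor
      · intro h
        rw [h _ _ rfl]; rfl
      · intro h i c hc
        rw [Option.some.injEq, Prod.mk.injEq] at hc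
        rw [← hc.1, ← hc.2]
        simpa using h
    · rw [dif_neg h2, dif_neg h2]
      simp

/-- the program with given edges -/
def toNBP (n : ℕ) (E : List (ℕ × ℕ × ℕ)) : NBP n := ⟨E.map fun q => (q.1, q.2.1, lb n q.2.2)⟩

theorem eval_toNBP {n : ℕ} (E : List (ℕ × ℕ × ℕ)) (x : Fin n → Bool) :
    (toNBP n E).eval x = true ↔ V8H45.NR.Path E (nv x) 0 1 := by
  rw [eval_iff]
  unfold NBP.Conn V8H45.NR.Path toNBP
  have e : (fun a b => ∃ s, (a, b, s) ∈ (E.map fun q => (q.1, q.2.1, lb n q.2.2)) ∧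
      ∀ i c, s = some (i, c) → x i = c) = fun c d => ∃ k, (c, d, k) ∈ E ∧ nv x k = true := by
    funext a b
    refine propext ⟨?_, ?_⟩
    · rintro ⟨s, hs, hv⟩
      obtain ⟨⟨a', b', k⟩, hk, he⟩ := List.mem_map.1 hs
      simp only [Prod.mk.injEq] at he
      obtain ⟨rfl, rfl, rfl⟩ := he
      exact ⟨k, hk, (lb_iff x k).1 hv⟩
    · rintro ⟨k, hk, hv⟩
      exact ⟨lb n k, List.mem_map.2 ⟨_, hk, rfl⟩, (lb_iff x k).2 hv⟩
  rw [e]

/-- **Nondeterministic multihead automata have nondeterministic branching programs of polynomial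
size.** -/
theorem sim_nbp {k : ℕ} {L : Language Letter} (hL : L ∈ twoNFA k Letter) :
    ∃ c : ℕ, ∀ (n : ℕ) (p : List (Letter ⊕ Fin n)),
      ∃ P : NBP n, P.edges.length ≤ (n + p.length + 2) ^ c ∧
        ∀ x, P.eval x = true ↔ fill p x ∈ L := by
  classical
  obtain ⟨M, rfl⟩ := hL
  have := M.finQ
  obtain ⟨K, hK⟩ : ∃ K, K = Nat.card M.Q * (1 + Nat.card (Sym Letter) ^ k * (k + 1)) + 1 :=
    ⟨_, rfl⟩
  refine ⟨2 * K + 4 * k + 8, fun n p => ?_⟩
  obtain ⟨hfin, hcard⟩ := finite_vx M.Q k p.length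
  have : Fintype (Vx M.Q k p.length) := Fintype.ofFinite _
  obtain ⟨code, hinj, hs, ht⟩ := exists_code (Vx M.Q k p.length) (Vx.cfg M.init fun _ => 0) Vx.acc
    (by simp)
  set F : Finset (Vx M.Q k p.length × Vx M.Q k p.length × Fin (2 * n + 1)) :=
    Finset.univ.filter fun q => Ed M p q.1 q.2.1 q.2.2.val with hF
  set E : List (ℕ × ℕ × ℕ) := F.toList.map fun q => (code q.1, code q.2.1, q.2.2.val) with hEdef
  have hE : ∀ a b l, (a, b, l) ∈ E ↔ ∃ u w, Ed M p u w l ∧ code u = a ∧ code w = b := by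
    intro a b l
    rw [hEdef, List.mem_map]
    constructor
    · rintro ⟨⟨u, w, l'⟩, h1, h2⟩
      rw [Finset.mem_toList, hF, Finset.mem_filter] at h1
      simp only [Prod.mk.injEq] at h2
      obtain ⟨h2, h3, h4⟩ := h2
      refine ⟨u, w, ?_, h2, h3⟩
      rw [← h4]
      exact h1.2
    · rintro ⟨u, w, h1, h2, h3⟩
      refine ⟨(u, w, ⟨l, h1.lt⟩), ?_, by simp [h2, h3]⟩
      rw [Finset.mem_toList, hF, Finset.mem_filter]
      exact ⟨Finset.mem_univ _, h1⟩
  refine ⟨toNBP n E, ?_, fun x => ?_⟩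
  · -- the number of edges
    obtain ⟨e, he⟩ : ∃ e, e = Nat.log 2 (n + p.length + 2) := ⟨_, rfl⟩
    have he1 : n + p.length + 2 < 2 ^ (e + 1) := by
      rw [he]
      exact Nat.lt_pow_succ_log_self (by norm_num) _
    have he0 : 1 ≤ e := by
      rw [he]
      exact Nat.log_pos (by norm_num) (by omega)
    have he2 : 2 ^ e ≤ n + p.length + 2 := by
      rw [he]
      exact Nat.pow_log_le_self 2 (by omega)
    have hlen : E.length ≤ Nat.card (Vx M.Q k p.length) * (Nat.card (Vx M.Q k p.length) *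
        (2 * n + 1)) := by
      rw [hEdef, List.length_map, Finset.length_toList]
      refine (Finset.card_filter_le _ _).trans ?_
      rw [Finset.card_univ, Fintype.card_prod, Fintype.card_prod, Fintype.card_fin,
        Nat.card_eq_fintype_card]
    have hV : Nat.card (Vx M.Q k p.length) ≤ 2 ^ (K + (e + 1) * k) := by
      calc Nat.card (Vx M.Q k p.length) ≤ K * (p.length + 2) ^ k := by rw [hK]; exact hcard
        _ ≤ 2 ^ K * (2 ^ (e + 1)) ^ k := Nat.mul_le_mul Nat.lt_two_pow_self.le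
            (Nat.pow_le_pow_left (by omega) k)
        _ = 2 ^ (K + (e + 1) * k) := by rw [← pow_mul, ← pow_add]
    have hn : 2 * n + 1 ≤ 2 ^ (e + 2) := by
      rw [pow_succ]
      omega
    have hlen2 : E.length ≤ 2 ^ (2 * (K + (e + 1) * k) + (e + 2)) := by
      calc E.length ≤ 2 ^ (K + (e + 1) * k) * (2 ^ (K + (e + 1) * k) * 2 ^ (e + 2)) :=
            hlen.trans (Nat.mul_le_mul hV (Nat.mul_le_mul hV hn))
        _ = _ := by rw [← pow_add, ← pow_add]; congr 1; ring
    have h2 : 2 * (K + (e + 1) * k) + (e + 2) ≤ e * (2 * K + 4 * k + 8) := by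
      nlinarith [Nat.zero_le K, Nat.zero_le k, Nat.mul_le_mul_left K he0,
        Nat.mul_le_mul_left k he0]
    have h3 : (toNBP n E).edges.length = E.length := by
      unfold toNBP
      rw [List.length_map]
    rw [h3]
    calc E.length ≤ 2 ^ (2 * (K + (e + 1) * k) + (e + 2)) := hlen2
      _ ≤ 2 ^ (e * (2 * K + 4 * k + 8)) := Nat.pow_le_pow_right (by norm_num) h2
      _ = (2 ^ e) ^ (2 * K + 4 * k + 8) := by rw [pow_mul]
      _ ≤ (n + p.length + 2) ^ (2 * K + 4 * k + 8) := Nat.pow_le_pow_left he2 _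
  · have h1 := path_code hinj hE (nv x) (Vx.cfg M.init fun _ => 0) Vx.acc
    rw [hs, ht] at h1
    rw [eval_toNBP, ← gr_iff, h1]
    rfl

end Pool.Agent.V8H38.NH
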