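import Pool.Agent.V8H38.HZ.Defs

/-!
# Nondeterministic branching programs and their three-valued evaluation
-/

namespace Pool.Agent.V8H38.NH

open Pool.Agent.V8H38.HZ (span switch most)

/-- A nondeterministic branching program with `n` input variables: a directed graph on the natural
numbers, given by the list of its edges. The edge `(a, b, s)` leads from `a` to `b`. It can always
be used if `s = none`, and if `s = some (i, c)` then it can be used if the variable `i` has the
value `c`. -/
structure NBP (n : ℕ) : Type where
  /-- the edges -/
  edges : List (ℕ × ℕ × Option (Fin n × Bool))

namespace NBP

variable {n : ℕ}

/-- There is a path from `0` to `1` on which every label `some (i, c)` has the property `ok i c`. -/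
def Conn (P : NBP n) (ok : Fin n → Bool → Prop) : Prop :=
  Relation.ReflTransGen (fun a b => ∃ s, (a, b, s) ∈ P.edges ∧ ∀ i c, s = some (i, c) → ok i c) 0 1

open Classical in
/-- The output: the program accepts the input if some path from `0` to `1` can be used. -/
noncomputable def eval (P : NBP n) (x : Fin n → Bool) : Bool := decide (P.Conn fun i c => x i = c)

open Classical in
/-- The output of the three-valued evaluation, for an input some bits of which may be unknown: it
is one if some path from `0` to `1` reads known bits only and can be used; otherwise it is unknown
if some path from `0` to `1` reads only unknown bits and bits with the right value; otherwise it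
is zero. -/
noncomputable def eval3 (P : NBP n) (t : Fin n → Option Bool) : Option Bool :=
  if P.Conn fun i c => t i = some c then some true
  else if P.Conn fun i c => t i = some c ∨ t i = none then none
  else some false

/-- The program has a hazard for the inputs `x` and `y`: its output is the same for all inputs
whose bits are taken from `x` and `y`, but the output of the three-valued evaluation is unknown if
the bits in which `x` and `y` differ are unknown. -/
def Hazard (P : NBP n) (x y : Fin n → Bool) : Prop :=
  P.eval3 (span x y) = none ∧ ∀ w : Fin n → Bool, (∀ i, w i = x i ∨ w i = y i) → P.eval w = P.eval x

/-- The variables are ordered by `π`. The greatest number of pairwise disjoint intervals of the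
order such that the output of the three-valued evaluation is unknown when the variables in the
interval are unknown, the earlier ones are one and the later ones are zero. -/
noncomputable def unknown (P : NBP n) (π : Equiv.Perm (Fin n)) : ℕ :=
  most (fun a b => P.eval3 (span (switch Finset.univ (fun _ => false) π a)
    (switch Finset.univ (fun _ => false) π b)) = none) n

/-- The greatest number of pairwise disjoint intervals of the order for which the program has a
hazard. -/
noncomputable def hazards (P : NBP n) (π : Equiv.Perm (Fin n)) : ℕ :=
  most (fun a b => P.Hazard (switch Finset.univ (fun _ => false) π a)
    (switch Finset.univ (fun _ => false) π b)) n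

open Classical in
/-- The number of the variables `i` for which some edge can be used only if the variable is zero. -/
noncomputable def negated (P : NBP n) : ℕ :=
  (Finset.univ.filter fun i : Fin n => ∃ a b, (a, b, some (i, false)) ∈ P.edges).card

open Classical in
/-- The probability, under the distribution with the weights `D`, that the program is right about
the predicate `f`. -/
noncomputable def agree (P : NBP n) (D : (Fin n → Bool) → ℝ) (f : (Fin n → Bool) → Prop) : ℝ :=
  ∑ x, if (P.eval x = true ↔ f x) then D x else 0

end NBP

end Pool.Agent.V8H38.NH
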