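import Pool.Agent.V8H38.NH.Chain
import Pool.Agent.V8H45.NR.Reach

/-!
# The three-valued evaluation above a fixed input has small monotone depth
-/

set_option linter.unusedSectionVars false

namespace Pool.Agent.V8H38.NH

open Finset
open Pool.Agent.V8H38.RM (MDep)
open Pool.Agent.V8H38.HZ (span)

variable {n : ℕ}

/-- the dual of a monotone formula -/
theorem mdep_dual {ι : Type} {d : ℕ} {f : (ι → Bool) → Bool} (h : MDep d f) :
    MDep d (fun x => !f fun i => !x i) := by
  induction h with
  | var d i =>
    have e : (fun x : ι → Bool => !(!x i)) = fun x => x i := by funext x; simp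
    rw [e]
    exact MDep.var d i
  | const d b => exact MDep.const d _
  | @and d f g _ _ h1 h2 =>
    have e : (fun x : ι → Bool => !(f (fun i => !x i) && g fun i => !x i)) =
        fun x => (!f fun i => !x i) || (!g fun i => !x i) := by funext x; simp
    rw [e]
    exact MDep.or h1 h2
  | @or d f g _ _ h1 h2 =>
    have e : (fun x : ι → Bool => !(f (fun i => !x i) || g fun i => !x i)) =
        fun x => (!f fun i => !x i) && (!g fun i => !x i) := by funext x; simp
    rw [e]
    exact MDep.and h1 h2

/-- numbers for the labels -/
def code : Option (Fin n × Bool) → ℕ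
  | none => 0
  | some (i, c) => 2 * i.val + 1 + c.toNat

theorem code_inj {s s' : Option (Fin n × Bool)} (h : code s = code s') : s = s' := by
  rcases s with _ | ⟨i, c⟩ <;> rcases s' with _ | ⟨i', c'⟩
  · rfl
  · simp only [code] at h; omega
  · simp only [code] at h; omega
  · simp only [code] at h
    have h1 : i.val = i'.val := by cases c <;> cases c' <;> simp at h <;> omega
    have h2 : i = i' := Fin.ext h1
    subst h2
    cases c <;> cases c' <;> simp at h ⊢

/-- **The monotone depth of the paths of a program.** -/
theorem mdep_conn {ι : Type} {D : ℕ} (P : NBP n) (F : Fin n → Bool → (ι → Bool) → Bool)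
    (hF : ∀ i c, MDep D (F i c)) :
    ∃ H : (ι → Bool) → Bool, MDep (D + (Nat.size P.edges.length + 1) ^ 2) H ∧
      ∀ y, H y = true ↔ P.Conn fun i c => F i c y = true := by
  classical
  let G : ℕ → (ι → Bool) → Bool := fun k y =>
    decide (∀ i c, k = code (some (i, c)) → F i c y = true)
  have hG : ∀ s : Option (Fin n × Bool), MDep D (G (code s)) := by
    intro s
    rcases s with _ | ⟨i, c⟩
    · have e : G (code (none : Option (Fin n × Bool))) = fun _ => true := by
        funext y
        simp only [G, decide_eq_true_eq]
        intro i c h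
        exact absurd (code_inj h) (by simp)
      rw [e]
      exact MDep.const _ _
    · have e : G (code (some (i, c))) = F i c := by
        funext y
        simp only [G]
        rw [Bool.eq_iff_iff, decide_eq_true_eq]
        constructor
        · intro h; exact h i c rfl
        · intro h i' c' h'
          have := code_inj h'
          rw [Option.some.injEq, Prod.mk.injEq] at this
          rw [← this.1, ← this.2]
          exact h
      rw [e]
      exact hF i c
  have h := Pool.Agent.V8H45.NR.mdep_reach (D := D)
    (P.edges.map fun q => (q.1, q.2.1, code q.2.2)) G (by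
      intro q hq
      obtain ⟨q', _, rfl⟩ := List.mem_map.1 hq
      exact hG _)
  rw [List.length_map] at h
  refine ⟨_, h, fun y => ?_⟩
  rw [decide_eq_true_eq]
  unfold Pool.Agent.V8H45.NR.Path NBP.Conn
  have e : (fun c d => ∃ k, (c, d, k) ∈ P.edges.map (fun q => (q.1, q.2.1, code q.2.2)) ∧
      G k y = true) = fun a b => ∃ s, (a, b, s) ∈ P.edges ∧ ∀ i c, s = some (i, c) →
        F i c y = true := by
    funext a b
    refine propext ⟨?_, ?_⟩
    · rintro ⟨k, hk, hv⟩
      obtain ⟨⟨a', b', s⟩, hs, he⟩ := List.mem_map.1 hk
      simp only [Prod.mk.injEq] at he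
      obtain ⟨rfl, rfl, rfl⟩ := he
      refine ⟨s, hs, fun i c h => ?_⟩
      subst h
      simp only [G, decide_eq_true_eq] at hv
      exact hv i c rfl
    · rintro ⟨s, hs, hv⟩
      refine ⟨code s, List.mem_map.2 ⟨_, hs, rfl⟩, ?_⟩
      simp only [G, decide_eq_true_eq]
      intro i c h
      exact hv i c (code_inj h)
  rw [e]

theorem Conn_mono (P : NBP n) {p q : Fin n → Bool → Prop} (h : ∀ i c, p i c → q i c)
    (hc : P.Conn p) : P.Conn q := by
  unfold NBP.Conn at hc ⊢
  exact Relation.ReflTransGen.mono
    (fun a b ⟨s, hs, hv⟩ => ⟨s, hs, fun i c e => h i c (hv i c e)⟩) _ _ hc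

theorem eval_iff (P : NBP n) (x : Fin n → Bool) : P.eval x = true ↔ P.Conn fun i c => x i = c := by
  simp only [NBP.eval, decide_eq_true_eq]

/-- unknown: there is a path that may be there, and no path that is surely there -/
theorem none_iff (P : NBP n) (t : Fin n → Option Bool) : P.eval3 t = none ↔
    (P.Conn fun i c => t i = some c ∨ t i = none) ∧ ¬ P.Conn fun i c => t i = some c := by
  unfold NBP.eval3
  by_cases h1 : P.Conn fun i c => t i = some c
  · rw [if_pos h1]; simp [h1]
  · rw [if_neg h1]
    by_cases h2 : P.Conn fun i c => t i = some c ∨ t i = none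
    · rw [if_pos h2]; simp [h1, h2]
    · rw [if_neg h2]; simp [h2]

theorem sure_of {x y : Fin n → Bool} {i : Fin n} {c : Bool} (h : span x y i = some c) :
    x i = c ∧ y i = c := by
  unfold span at h
  split_ifs at h with h1
  rw [Option.some.injEq] at h
  exact ⟨h, h1 ▸ h⟩

theorem poss_left {x y : Fin n → Bool} {i : Fin n} {c : Bool} (h : x i = c) :
    span x y i = some c ∨ span x y i = none := by
  unfold span
  by_cases h1 : x i = y i
  · rw [if_pos h1]; left; rw [h]
  · rw [if_neg h1]; right; rfl

theorem poss_right {x y : Fin n → Bool} {i : Fin n} {c : Bool} (h : y i = c) :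
    span x y i = some c ∨ span x y i = none := by
  unfold span
  by_cases h1 : x i = y i
  · rw [if_pos h1]; left; rw [h1, h]
  · rw [if_neg h1]; right; rfl

theorem eval_eq (P : NBP n) {x y : Fin n → Bool} (h : ¬ P.eval3 (span x y) = none) :
    P.eval x = P.eval y := by
  rw [none_iff] at h
  rw [Bool.eq_iff_iff, eval_iff, eval_iff]
  by_cases h1 : P.Conn fun i c => span x y i = some c
  · exact ⟨fun _ => Conn_mono P (fun i c hc => (sure_of hc).2) h1,
      fun _ => Conn_mono P (fun i c hc => (sure_of hc).1) h1⟩
  · have h2 : ¬ P.Conn fun i c => span x y i = some c ∨ span x y i = none := fun h2 => h ⟨h2, h1⟩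
    exact ⟨fun h3 => absurd (Conn_mono P (fun i c hc => poss_left hc) h3) h2,
      fun h3 => absurd (Conn_mono P (fun i c hc => poss_right hc) h3) h2⟩

theorem not_self (P : NBP n) (x : Fin n → Bool) : ¬ P.eval3 (span x x) = none := by
  rw [none_iff]
  rintro ⟨h1, h2⟩
  refine h2 (Conn_mono P (fun i c hc => ?_) h1)
  rcases hc with h | h
  · exact h
  · unfold span at h
    simp at h

/-- **The noticer.** -/
theorem notice (P : NBP n) (x : Fin n → Bool) : ∃ H : (Fin n → Bool) → Bool,
    MDep ((Nat.size P.edges.length + 1) ^ 2 + 1) H ∧
    ∀ y, (∀ i, x i = true → y i = true) → (H y = true ↔ P.eval3 (span x y) = none) := by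
  classical
  -- may be there
  obtain ⟨H1, h1, h1'⟩ := mdep_conn (D := 0) P (fun i c y => if x i = c then true else
    if c = true then y i else false) (by
      intro i c
      by_cases h : x i = c
      · simp only [if_pos h]; exact MDep.const _ _
      · simp only [if_neg h]
        cases c
        · simp only [Bool.false_eq_true, if_false]; exact MDep.const _ _
        · simp only [if_true]; exact MDep.var _ _)
  -- surely there, in the negated bits
  obtain ⟨H2, h2, h2'⟩ := mdep_conn (D := 0) P (fun i c (y : Fin n → Bool) =>
    if x i = c then (if c = true then true else y i) else false) (by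
      intro i c
      by_cases h : x i = c
      · simp only [if_pos h]
        cases c
        · simp only [Bool.false_eq_true, if_false]; exact MDep.var _ _
        · simp only [if_true]; exact MDep.const _ _
      · simp only [if_neg h]; exact MDep.const _ _)
  rw [zero_add] at h1 h2
  refine ⟨fun y => H1 y && !H2 fun i => !y i, MDep.and h1 (mdep_dual h2), fun y hy => ?_⟩
  rw [Bool.and_eq_true, Bool.not_eq_true', ← Bool.not_eq_true, h1', h2', none_iff]
  have e1 : (fun (i : Fin n) (c : Bool) => (if x i = c then true else
      if c = true then y i else false) = true) =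
      fun i c => span x y i = some c ∨ span x y i = none := by
    funext i c
    have := hy i
    unfold span
    cases hx : x i <;> cases hy' : y i <;> cases c <;> simp [hx, hy'] at this ⊢
  have e2 : (fun (i : Fin n) (c : Bool) => (if x i = c then (if c = true then true else !y i)
      else false) = true) = fun i c => span x y i = some c := by
    funext i c
    have := hy i
    unfold span
    cases hx : x i <;> cases hy' : y i <;> cases c <;> simp [hx, hy'] at this ⊢
  rw [e1, e2]

theorem good (P : NBP n) {d : ℕ} (hd : (Nat.size P.edges.length + 1) ^ 2 + 1 ≤ d) :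
    Good d P.eval (fun x y => P.eval3 (span x y) = none) where
  eq := fun _ _ h => eval_eq P h
  self := not_self P
  note := fun x => by
    obtain ⟨H, h1, h2⟩ := notice P x
    exact ⟨H, h1.mono hd, h2⟩

end Pool.Agent.V8H38.NH
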