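import Pool.Agent.V8H38.NH.Order

/-!
# Unknown values and hazards
-/

set_option linter.unusedSectionVars false

namespace Pool.Agent.V8H38.NH

open Finset
open Pool.Agent.V8H38.HZ (span switch most le_most exists_most most_le Proper Disj switch_le switch_off)

variable {n : ℕ}

/-- unknown value, but constant output -/
def Haz (ev : (Fin n → Bool) → Bool) (U : Rel n) : Rel n := fun x y =>
  U x y ∧ ∀ w : Fin n → Bool, (∀ i, w i = x i ∨ w i = y i) → ev w = ev x

theorem haz_self {ev : (Fin n → Bool) → Bool} {U : Rel n} (hU : ∀ x, ¬ U x x) :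
    ∀ x, ¬ Haz ev U x x := fun x h => hU x h.1

/-- **Unknown values are hazards.** If the output is monotone, then all but one of the disjoint
intervals with unknown output are hazards. -/
theorem unknown_le_hazards {ev : (Fin n → Bool) → Bool} {U : Rel n} (hU : ∀ x, ¬ U x x)
    (E : Finset (Fin n)) (z : Fin n → Bool) (π : Equiv.Perm (Fin n))
    (hC : ∀ x y : Fin n → Bool, (∀ a, a ∉ E → x a = y a) → (∀ a, x a = true → y a = true) →
      ev x = true → ev y = true) :
    most (fun a b => U (switch E z π a) (switch E z π b)) n ≤
      most (fun a b => Haz ev U (switch E z π a) (switch E z π b)) n + 1 := by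
  classical
  set X := switch E z π with hX
  have hmono : ∀ a b, a ≤ b → ev (X a) = true → ev (X b) = true := fun a b hab h =>
    hC _ _ (fun i hi => by rw [hX, switch_off _ _ _ _ _ hi, switch_off _ _ _ _ _ hi])
      (fun i hi => switch_le E z π hab i hi) h
  obtain ⟨S, hS1, hS2⟩ := exists_most (proper_rel hU X) n
  have h1 : most (fun a b => U (X a) (X b)) n = S.card := hS1.symm
  rw [h1, ← Finset.card_filter_add_card_filter_not (s := S)
    (fun p : ℕ × ℕ => ev (X p.1) = ev (X p.2))]
  refine Nat.add_le_add ?_ ?_
  · refine le_most (proper_rel (haz_self hU) X) ⟨?_, ?_⟩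
    · intro p hp
      rw [Finset.mem_filter] at hp
      obtain ⟨h2, h3, h4⟩ := hS2.1 p hp.1
      refine ⟨h2, h3, h4, ?_⟩
      intro w hw
      have hxw : ev (X p.1) = true → ev w = true := by
        refine hC _ _ (fun i hi => ?_) (fun i hi => ?_)
        · rcases hw i with h | h
          · exact h.symm
          · rw [h, hX, switch_off _ _ _ _ _ hi, switch_off _ _ _ _ _ hi]
        · rcases hw i with h | h
          · rw [h]; exact hi
          · rw [h]; exact switch_le E z π h2 i hi
      have hwy : ev w = true → ev (X p.2) = true := by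
        refine hC _ _ (fun i hi => ?_) (fun i hi => ?_)
        · rcases hw i with h | h
          · rw [h, hX, switch_off _ _ _ _ _ hi, switch_off _ _ _ _ _ hi]
          · exact h
        · rcases hw i with h | h
          · exact switch_le E z π h2 i (h.symm.trans hi)
          · rw [← h]; exact hi
      have he := hp.2
      cases hx : ev (X p.1)
      · rw [hx] at he
        cases hw' : ev w
        · rfl
        · rw [← he] at hwy
          exact absurd (hwy hw') (by decide)
      · exact hxw hx
    · intro p hp q hq hne
      exact hS2.2 p (Finset.mem_filter.1 hp).1 q (Finset.mem_filter.1 hq).1 hne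
  · rw [Finset.card_le_one]
    intro p hp q hq
    by_contra hne
    rw [Finset.mem_filter] at hp hq
    have key : ∀ p q : ℕ × ℕ, p ∈ S → q ∈ S → ev (X p.1) ≠ ev (X p.2) →
        ev (X q.1) ≠ ev (X q.2) → ¬ p.2 ≤ q.1 := by
      intro p q hp hq hcp hcq h
      have h2 := (hS2.1 p hp).1
      have h3 := (hS2.1 q hq).1
      have h4 : ev (X p.2) = true := by
        cases h5 : ev (X p.2)
        · exfalso
          apply hcp
          rw [h5]
          cases h6 : ev (X p.1)
          · rfl
          · rw [hmono _ _ h2 h6] at h5
            exact h5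
        · rfl
      have h5 := hmono _ _ h h4
      exact hcq (h5.trans (hmono _ _ h3 h5).symm)
    rcases hS2.2 p hp.1 q hq.1 hne with h | h
    · exact key p q hp.1 hq.1 hp.2 hq.2 h
    · exact key q p hq.1 hp.1 hq.2 hp.2 h

end Pool.Agent.V8H38.NH
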