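import Pool.Agent.V8H38.NH.Dep
import Pool.Agent.V8H38.NH.Final

/-!
# The hazard law for nondeterministic branching programs
-/

set_option exponentiation.threshold 3000

namespace Pool.Agent.V8H38.NH

open Finset Function Pool.Agent.V8H38.RM
open Pool.Agent.V8H38.HZ (span switch most most_le switch_le)

variable {n : ℕ}

/-- if no variable read negatively is unknown, then unknown values are changes of the output -/
theorem eval_ne (P : NBP n) {x y : Fin n → Bool} (hxy : ∀ i, x i = true → y i = true)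
    (hneg : ∀ i a b, (a, b, some (i, false)) ∈ P.edges → x i = y i)
    (h : P.eval3 (span x y) = none) : P.eval x = false ∧ P.eval y = true := by
  rw [none_iff] at h
  constructor
  · rw [← Bool.not_eq_true, eval_iff]
    intro hx
    refine h.2 ?_
    unfold NBP.Conn at hx ⊢
    refine Relation.ReflTransGen.mono ?_ _ _ hx
    rintro a b ⟨s, hs, hv⟩
    refine ⟨s, hs, fun i c e => ?_⟩
    have h1 := hv i c e
    subst e
    cases c
    · have h2 := hneg i a b hs
      show span x y i = some false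
      unfold span
      rw [if_pos h2, h1]
    · have h2 := hxy i h1
      show span x y i = some true
      unfold span
      rw [if_pos (h1.trans h2.symm), h1]
  · rw [eval_iff]
    have h1 := h.1
    unfold NBP.Conn at h1 ⊢
    refine Relation.ReflTransGen.mono ?_ _ _ h1
    rintro a b ⟨s, hs, hv⟩
    refine ⟨s, hs, fun i c e => ?_⟩
    have h1 := hv i c e
    subst e
    cases c
    · have h2 := hneg i a b hs
      unfold span at h1
      rw [if_pos h2] at h1
      simpa [h2] using h1
    · have h2 := hxy i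
      unfold span at h1
      cases hx : x i <;> cases hy : y i <;> simp [hx, hy] at h1 h2 ⊢

/-- **Hazards come from variables that are read negatively.** -/
theorem hazards_le_negated (P : NBP n) (π : Equiv.Perm (Fin n)) : P.hazards π ≤ P.negated := by
  classical
  unfold NBP.hazards NBP.negated
  refine (most_le ((Finset.univ.filter fun i : Fin n => ∃ a b, (a, b, some (i, false)) ∈
    P.edges).image fun i => (π i : ℕ)) ?_).trans (Finset.card_image_le.trans (le_of_eq ?_))
  · intro a b hab hb h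
    by_contra hno
    push Not at hno
    have h1 := eval_ne P (fun i hi => switch_le Finset.univ (fun _ => false) π hab i hi) (by
      intro i u v hi
      have h2 := hno (π i : ℕ) (Finset.mem_image.2 ⟨i, Finset.mem_filter.2
        ⟨Finset.mem_univ _, u, v, hi⟩, rfl⟩)
      unfold switch
      rw [if_pos (Finset.mem_univ _), if_pos (Finset.mem_univ _), Bool.eq_iff_iff,
        decide_eq_true_iff, decide_eq_true_iff]
      constructor
      · intro h; omega
      · intro h
        by_contra h3
        have := h2 (by omega)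
        omega) h.1
    have h2 := h.2 _ (fun i => Or.inr rfl)
    rw [h1.1, h1.2] at h2
    exact absurd h2 (by decide)
  · congr

/-- **The main theorem.** -/
theorem main : ∃ a : ℕ, ∀ n s : ℕ, 0 < n → 2 ≤ s → n ≤ 2 ^ s →
    ∃ p : List (Letter ⊕ Fin n), p.length ≤ n ^ 3 ∧ p.filterMap Sum.getRight? = List.finRange n ∧
    ∃ (D : (Fin n → Bool) → ℝ) (Q : Equiv.Perm (Fin n) → ℝ), (∀ x, 0 ≤ D x) ∧ ∑ x, D x = 1 ∧
      (∀ π, 0 ≤ Q π) ∧ ∑ π, Q π = 1 ∧ ∀ P : NBP n, P.edges.length ≤ 2 ^ s →
        P.agree D (fun x => fill p x ∈ MCV) ≤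
          1 / 2 + (1 + ∑ π, Q π * (P.unknown π : ℝ)) * (s : ℝ) ^ a / n ∧
        ((∀ x, P.eval x = true ↔ fill p x ∈ MCV) →
          (n : ℝ) / (2 * (s : ℝ) ^ a) - 2 ≤ ∑ π, Q π * (P.hazards π : ℝ)) := by
  obtain ⟨a, ha⟩ := main_haz
  refine ⟨5 * a, fun n s hn hs hns => ?_⟩
  obtain ⟨t, ht⟩ : ∃ t, t = (s + 2) ^ 2 + 1 := ⟨_, rfl⟩
  have hst : s ≤ t := by rw [ht]; nlinarith
  have hlog : Nat.log 2 n ≤ s := by
    have h1 : Nat.log 2 n ≤ Nat.log 2 (2 ^ s) := Nat.log_mono_right hns
    rwa [Nat.log_pow (by norm_num)] at h1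
  obtain ⟨p, h1, h2, D, Q, h3, h4, h5, h6, h7⟩ := ha n t hn (by omega) (by omega)
  refine ⟨p, h1, h2, D, Q, h3, h4, h5, h6, fun P hP => ?_⟩
  have hsize : Nat.size P.edges.length ≤ s + 1 := by
    rw [Nat.size_le]
    exact hP.trans_lt (Nat.pow_lt_pow_right (by norm_num) (by omega))
  have hgood := good P (d := t) (by
    rw [ht]
    have := Nat.pow_le_pow_left (show Nat.size P.edges.length + 1 ≤ s + 2 by omega) 2
    omega)
  obtain ⟨h8, h9⟩ := h7 _ _ hgood
  have hnr : (0:ℝ) < n := by exact_mod_cast hn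
  have ht0 : (0:ℝ) < t := by exact_mod_cast (show 0 < t by omega)
  have hts : (t:ℝ) ^ a ≤ (s:ℝ) ^ (5 * a) := by
    rw [pow_mul]
    refine pow_le_pow_left₀ ht0.le ?_ a
    have h10 : t ≤ s ^ 5 := by
      rw [ht]
      have h11 : 8 ≤ s ^ 3 := by
        calc 8 = 2 ^ 3 := by norm_num
          _ ≤ s ^ 3 := Nat.pow_le_pow_left hs 3
      have h12 : (s + 2) ^ 2 + 1 ≤ 8 * s ^ 2 := by nlinarith
      calc (s + 2) ^ 2 + 1 ≤ 8 * s ^ 2 := h12
        _ ≤ s ^ 3 * s ^ 2 := Nat.mul_le_mul_right _ h11
        _ = s ^ 5 := by ring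
    exact_mod_cast h10
  have hU0 : 0 ≤ avg Q (fun x y => P.eval3 (span x y) = none) := avg_nonneg h5 _
  constructor
  · refine h8.trans ?_
    have h10 : (1 + avg Q (fun x y => P.eval3 (span x y) = none)) * (t:ℝ) ^ a / n ≤
        (1 + avg Q (fun x y => P.eval3 (span x y) = none)) * (s:ℝ) ^ (5 * a) / n := by
      refine div_le_div_of_nonneg_right ?_ hnr.le
      exact mul_le_mul_of_nonneg_left hts (by linarith)
    have h11 : avg Q (fun x y => P.eval3 (span x y) = none) =
        ∑ π, Q π * (P.unknown π : ℝ) := rfl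
    rw [h11] at h10
    rw [h11]
    linarith
  · intro hex
    have h10 := h9 hex
    have h11 : avg Q (Haz P.eval fun x y => P.eval3 (span x y) = none) =
        ∑ π, Q π * (P.hazards π : ℝ) := rfl
    rw [h11] at h10
    refine le_trans ?_ h10
    have h12 : (n:ℝ) / (2 * (s:ℝ) ^ (5 * a)) ≤ n / (2 * (t:ℝ) ^ a) := by
      refine div_le_div_of_nonneg_left hnr.le (by positivity) ?_
      linarith
    linarith

end Pool.Agent.V8H38.NH
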